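import Pool.Agent.helper79.SX.Spec

set_option autoImplicit false

open Finset ArithmeticFunction

namespace Pool.Agent.SX

/-- test of one candidate: `m (m + 6)` is coprime to `Q`, and `m + 1, .., m + 5` are not coprime to `210` -/
def SML_ok (Q m : ℕ) : Bool :=
  and (Nat.beq (Nat.gcd (m * (m + 6)) Q) 1)
    (and (Nat.blt 1 (Nat.gcd (m + 1) 210)) (and (Nat.blt 1 (Nat.gcd (m + 2) 210))
      (and (Nat.blt 1 (Nat.gcd (m + 3) 210)) (and (Nat.blt 1 (Nat.gcd (m + 4) 210))
        (Nat.blt 1 (Nat.gcd (m + 5) 210))))))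

/-- scan of the candidates `m, m + s, m + s + t, ..` below `hi` until `need` good ones are found -/
def SML_scan (Q hi : ℕ) (f : ℕ) : ℕ → ℕ → ℕ → ℕ → Bool :=
  Nat.rec (fun _ _ _ _ => false)
    (fun _ ih m s t need =>
      cond (Nat.beq need 0) true
        (cond (Nat.ble hi (m + 6)) false
          (cond (SML_ok Q m)
            (frc (m + s) fun m' => frc (need - 1) fun nd => ih m' t s nd)
            (frc (m + s) fun m' => ih m' t s need)))) f

/-- the prime which is used for `n` -/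
def SML_q (n : ℕ) : ℕ :=
  cond (Nat.ble n 12) 7 (cond (Nat.ble n 23) 11 (cond (Nat.ble n 29) 13 (cond (Nat.ble n 42) 17
    (cond (Nat.ble n 49) 19 (cond (Nat.ble n 64) 23 (cond (Nat.ble n 88) 29
      (cond (Nat.ble n 96) 31 (cond (Nat.ble n 122) 37 41))))))))

/-- the check for one `n ≥ 6` -/
def SML_chk (n : ℕ) : Bool :=
  and (Nat.ble ((n + 1) ^ 3) (SML_q n ^ 4))
    (frc (Nat.factorial (SML_q n - 1)) fun Q => frc ((n + 1) ^ 3) fun hi =>
      frc (30 * (n ^ 3 / 30) + 31) fun m => SML_scan Q hi 5000 m 22 8 n)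

/-- the check for one small `n` -/
def SML_chk' (n : ℕ) : Bool :=
  and (Nat.ble ((n + 1) ^ 3) (SML_q n ^ 4))
    (frc (Nat.factorial (SML_q n - 1)) fun Q => frc ((n + 1) ^ 3) fun hi =>
      frc (n ^ 3 + 1) fun m => SML_scan Q hi 5000 m 1 1 n)

theorem SML_kernel : allB 128 (fun n => or (Nat.blt n 6) (SML_chk n)) = true := by
  decide +kernel

theorem SML_kernel' : allB 6 (fun n => or (Nat.blt n 3) (SML_chk' n)) = true := by
  decide +kernel

theorem SML_frc {β : Type} (n : ℕ) (f : ℕ → β) : frc n f = f n := by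
  cases n <;> rfl

theorem SML_allB (n : ℕ) (p : ℕ → Bool) (h : allB n p = true) : ∀ i, i < n → p i = true := by
  induction n with
  | zero => intro i hi; omega
  | succ n ih =>
    have h1 : and (p n) (allB n p) = true := h
    rw [Bool.and_eq_true] at h1
    intro i hi
    rcases Nat.lt_succ_iff_lt_or_eq.mp hi with h2 | h2
    · exact ih h1.2 i h2
    · rw [h2]; exact h1.1

theorem SML_scan_sound (Q hi : ℕ) (f : ℕ) : ∀ m s t need : ℕ, 1 ≤ s → 1 ≤ t →
    SML_scan Q hi f m s t need = true →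
    need ≤ ((Ico m hi).filter fun x => x + 6 < hi ∧ SML_ok Q x = true).card := by
  induction f with
  | zero =>
    intro m s t need hs ht h
    have h1 : false = true := h
    exact absurd h1 (by decide)
  | succ f ih =>
    intro m s t need hs ht h
    have h1 : (cond (Nat.beq need 0) true
        (cond (Nat.ble hi (m + 6)) false
          (cond (SML_ok Q m)
            (frc (m + s) fun m' => frc (need - 1) fun nd => SML_scan Q hi f m' t s nd)
            (frc (m + s) fun m' => SML_scan Q hi f m' t s need)))) = true := h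
    by_cases h0 : need = 0
    · rw [h0]; exact Nat.zero_le _
    have h0' : Nat.beq need 0 = false := by
      cases need with
      | zero => exact absurd rfl h0
      | succ k => rfl
    rw [h0', cond_false] at h1
    by_cases h2 : hi ≤ m + 6
    · have h2' : Nat.ble hi (m + 6) = true := Nat.ble_eq.mpr h2
      rw [h2', cond_true] at h1
      exact absurd h1 (by decide)
    have h2' : Nat.ble hi (m + 6) = false := by
      by_contra hcon
      rw [Bool.not_eq_false] at hcon
      exact h2 (Nat.ble_eq.mp hcon)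
    rw [h2', cond_false] at h1
    have hsub : ((Ico (m + s) hi).filter fun x => x + 6 < hi ∧ SML_ok Q x = true) ⊆
        ((Ico m hi).filter fun x => x + 6 < hi ∧ SML_ok Q x = true) := by
      apply Finset.filter_subset_filter
      apply Finset.Ico_subset_Ico (Nat.le_add_right _ _) le_rfl
    cases hok : SML_ok Q m with
    | true =>
      rw [hok, cond_true, SML_frc, SML_frc] at h1
      have h3 := ih (m + s) t s (need - 1) ht hs h1
      have h4 : m ∉ ((Ico (m + s) hi).filter fun x => x + 6 < hi ∧ SML_ok Q x = true) := by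
        rw [Finset.mem_filter, Finset.mem_Ico]
        rintro ⟨⟨h5, -⟩, -⟩
        omega
      have h5 : insert m ((Ico (m + s) hi).filter fun x => x + 6 < hi ∧ SML_ok Q x = true) ⊆
          ((Ico m hi).filter fun x => x + 6 < hi ∧ SML_ok Q x = true) := by
        apply Finset.insert_subset _ hsub
        rw [Finset.mem_filter, Finset.mem_Ico]
        refine ⟨⟨le_rfl, by omega⟩, by omega, hok⟩
      have h6 := Finset.card_le_card h5
      rw [Finset.card_insert_of_notMem h4] at h6
      omega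
    | false =>
      rw [hok, cond_false, SML_frc] at h1
      exact (ih (m + s) t s need ht hs h1).trans (Finset.card_le_card hsub)

/-- prime factors of `x ≥ 1` all `≥ q`, `x < q ^ 4`: at most three of them -/
theorem SML_Omega (q x : ℕ) (hq : 2 ≤ q) (hx : x ≠ 0) (hx4 : x < q ^ 4)
    (h : ∀ p : ℕ, p.Prime → p ∣ x → q ≤ p) : cardFactors x ≤ 3 := by
  have h1 : q ^ (cardFactors x) ≤ x := by
    rw [cardFactors_apply]
    have h2 : ∀ l : List ℕ, (∀ p ∈ l, q ≤ p) → q ^ l.length ≤ l.prod := by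
      intro l
      induction l with
      | nil => intro _; exact le_rfl
      | cons a l ih =>
        intro hl
        rw [List.length_cons, List.prod_cons, pow_succ']
        exact Nat.mul_le_mul (hl a (List.mem_cons_self)) (ih fun p hp => hl p (List.mem_cons_of_mem _ hp))
    have h3 := h2 x.primeFactorsList (fun p hp => h p (Nat.prime_of_mem_primeFactorsList hp)
      (Nat.dvd_of_mem_primeFactorsList hp))
    rw [Nat.prod_primeFactorsList hx] at h3
    exact h3
  by_contra hcon
  have h2 : 4 ≤ cardFactors x := by omega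
  have h3 : q ^ 4 ≤ q ^ (cardFactors x) := Nat.pow_le_pow_right (by omega) h2
  omega

theorem SML_q_ge (n : ℕ) : 7 ≤ SML_q n := by
  unfold SML_q
  cases Nat.ble n 12 <;> cases Nat.ble n 23 <;> cases Nat.ble n 29 <;> cases Nat.ble n 42 <;>
    cases Nat.ble n 49 <;> cases Nat.ble n 64 <;> cases Nat.ble n 88 <;> cases Nat.ble n 96 <;>
    cases Nat.ble n 122 <;> decide

theorem SML_comp (m x : ℕ) (hm : 7 < m) (hx : m < x) (hx6 : x < m + 6)
    (h1 : 1 < Nat.gcd (m + 1) 210) (h2 : 1 < Nat.gcd (m + 2) 210) (h3 : 1 < Nat.gcd (m + 3) 210)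
    (h4 : 1 < Nat.gcd (m + 4) 210) (h5 : 1 < Nat.gcd (m + 5) 210) : ¬ x.Prime := by
  intro hp
  have h6 : 1 < Nat.gcd x 210 := by
    have h7 : x = m + 1 ∨ x = m + 2 ∨ x = m + 3 ∨ x = m + 4 ∨ x = m + 5 := by omega
    rcases h7 with rfl | rfl | rfl | rfl | rfl <;> assumption
  have h7 : x ∣ 210 := by
    by_contra hcon
    have h8 := (Nat.Prime.coprime_iff_not_dvd hp).mpr hcon
    rw [Nat.Coprime] at h8
    omega
  have h8 : (210 : ℕ) = 2 * 3 * 5 * 7 := by norm_num
  rw [h8, Nat.Prime.dvd_mul hp, Nat.Prime.dvd_mul hp, Nat.Prime.dvd_mul hp] at h7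
  rcases h7 with ((h7 | h7) | h7) | h7
  · have := Nat.le_of_dvd (by norm_num) h7; omega
  · have := Nat.le_of_dvd (by norm_num) h7; omega
  · have := Nat.le_of_dvd (by norm_num) h7; omega
  · have := Nat.le_of_dvd (by norm_num) h7; omega

theorem SML_mem (n m : ℕ) (hn3 : 3 ≤ n) (hn : n ≤ 127) (hq4 : (n + 1) ^ 3 ≤ SML_q n ^ 4)
    (hm : n ^ 3 < m) (hm6 : m + 6 < (n + 1) ^ 3)
    (hok : SML_ok (Nat.factorial (SML_q n - 1)) m = true) : m ∈ Tset n := by
  unfold SML_ok at hok
  rw [Bool.and_eq_true, Bool.and_eq_true, Bool.and_eq_true, Bool.and_eq_true, Bool.and_eq_true] at hok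
  obtain ⟨h0, h1, h2, h3, h4, h5⟩ := hok
  have h0' : Nat.gcd (m * (m + 6)) (Nat.factorial (SML_q n - 1)) = 1 := Nat.eq_of_beq_eq_true h0
  have hlt : ∀ a : ℕ, Nat.blt 1 a = true → 1 < a := by
    intro a ha
    exact Nat.ble_eq.mp ha
  have h27 : 27 ≤ n ^ 3 := by
    calc 27 = 3 ^ 3 := by norm_num
      _ ≤ n ^ 3 := Nat.pow_le_pow_left hn3 3
  have hq7 := SML_q_ge n
  have hpr : ∀ p : ℕ, p.Prime → p ∣ m * (m + 6) → SML_q n ≤ p := by
    intro p hp hd
    by_contra hcon
    have h6 : p ∣ Nat.factorial (SML_q n - 1) := Nat.dvd_factorial hp.pos (by omega)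
    have h7 : p ∣ 1 := by
      rw [← h0']
      exact Nat.dvd_gcd hd h6
    exact hp.one_lt.ne' (Nat.dvd_one.mp h7)
  have ho1 : cardFactors m ≤ 3 := SML_Omega (SML_q n) m (by omega) (by omega) (by omega)
    (fun p hp hd => hpr p hp (Dvd.dvd.mul_right hd _))
  have ho2 : cardFactors (m + 6) ≤ 3 := SML_Omega (SML_q n) (m + 6) (by omega) (by omega) (by omega)
    (fun p hp hd => hpr p hp (Dvd.dvd.mul_left hd _))
  classical
  unfold Tset
  rw [Finset.mem_filter, Finset.mem_Ioo]
  refine ⟨⟨hm, by omega⟩, hm6, by omega, by omega, by omega, ?_, ?_⟩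
  · intro p hp hd
    have h6 := hpr p hp hd
    refine ⟨by omega, ?_⟩
    calc n ^ 2 ≤ 127 ^ 2 := Nat.pow_le_pow_left hn 2
      _ < 7 ^ 11 := by norm_num
      _ ≤ p ^ 11 := Nat.pow_le_pow_left (by omega) 11
  · intro x hx hx6
    exact SML_comp m x (by omega) hx hx6 (hlt _ h1) (hlt _ h2) (hlt _ h3) (hlt _ h4) (hlt _ h5)

theorem SML_card (n m s t : ℕ) (hn3 : 3 ≤ n) (hn : n ≤ 127) (hq4 : (n + 1) ^ 3 ≤ SML_q n ^ 4)
    (hm : n ^ 3 < m) (hs : 1 ≤ s) (ht : 1 ≤ t)
    (h : SML_scan (Nat.factorial (SML_q n - 1)) ((n + 1) ^ 3) 5000 m s t n = true) :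
    n ≤ (Tset n).card := by
  refine (SML_scan_sound _ _ _ m s t n hs ht h).trans (Finset.card_le_card ?_)
  intro x hx
  rw [Finset.mem_filter, Finset.mem_Ico] at hx
  exact SML_mem n x hn3 hn hq4 (by omega) hx.2.1 hx.2.2

theorem SML_log (n : ℕ) (hn3 : 3 ≤ n) (hn : n ≤ 127) :
    (n : ℝ) ^ 2 / (20 * Real.log n ^ 2) ≤ n := by
  have hn3' : (3 : ℝ) ≤ n := by exact_mod_cast hn3
  have hn0 : (0 : ℝ) < n := by linarith
  have h1 : 1 ≤ Real.log n := by
    rw [Real.le_log_iff_exp_le hn0]
    have := Real.exp_one_lt_d9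
    linarith
  have h2 : (n : ℝ) ≤ 20 * Real.log n ^ 2 := by
    by_cases hc : n ≤ 20
    · have hc' : (n : ℝ) ≤ 20 := by exact_mod_cast hc
      nlinarith
    · have hc' : (21 : ℝ) ≤ n := by exact_mod_cast (show 21 ≤ n by omega)
      have hn' : (n : ℝ) ≤ 127 := by exact_mod_cast hn
      have h3 : 3 ≤ Real.log n := by
        rw [Real.le_log_iff_exp_le hn0]
        have h4 : Real.exp 3 = Real.exp 1 ^ 3 := by
          rw [← Real.exp_nat_mul]
          norm_num
        have h5 : Real.exp 1 ^ 3 ≤ 2.7182818286 ^ 3 :=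
          pow_le_pow_left₀ (Real.exp_pos 1).le Real.exp_one_lt_d9.le 3
        have h6 : (2.7182818286 : ℝ) ^ 3 ≤ 21 := by norm_num
        rw [h4]
        linarith
      nlinarith
  rw [div_le_iff₀ (by positivity)]
  nlinarith

/-- Small `n`. -/
theorem SML : SML_stmt := by
  intro n hn3 hn
  refine ⟨?_, SML_log n hn3 hn⟩
  by_cases h5 : n < 6
  · have h1 := SML_allB 6 _ SML_kernel' n h5
    have h2 : or (Nat.blt n 3) (SML_chk' n) = true := h1
    rw [Bool.or_eq_true] at h2
    rcases h2 with h2 | h2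
    · have h3 : n < 3 := Nat.ble_eq.mp h2
      omega
    · unfold SML_chk' at h2
      rw [Bool.and_eq_true, SML_frc, SML_frc, SML_frc] at h2
      exact SML_card n _ 1 1 hn3 hn (Nat.ble_eq.mp h2.1) (Nat.lt_succ_self _) le_rfl le_rfl h2.2
  · have h1 := SML_allB 128 _ SML_kernel n (by omega)
    have h2 : or (Nat.blt n 6) (SML_chk n) = true := h1
    rw [Bool.or_eq_true] at h2
    rcases h2 with h2 | h2
    · have h3 : n < 6 := Nat.ble_eq.mp h2
      omega
    · unfold SML_chk at h2
      rw [Bool.and_eq_true, SML_frc, SML_frc, SML_frc] at h2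
      refine SML_card n _ 22 8 hn3 hn (Nat.ble_eq.mp h2.1) ?_ (by norm_num) (by norm_num) h2.2
      have h3 := Nat.div_add_mod (n ^ 3) 30
      have h4 := Nat.mod_lt (n ^ 3) (show 0 < 30 by norm_num)
      omega

end Pool.Agent.SX
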